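import Pool.Agent.W5h98.Pol.Asym

/-!
Polluted bootstrap percolation on `ℤ^d` with threshold `1 ≤ r < d`: the final density tends to `1`
as `(p, q) → (0, 0)`.
-/

set_option autoImplicit false

namespace Pool.Agent.Results.MP_faaa3e_pr.LowThreshold
open MeasureTheory ProbabilityTheory Filter Topology
open scoped ENNReal

/-- The law of one site: `0` (occupied) with probability `p`, `1` (closed) with probability `q`,
`2` (empty) with probability `1 - p - q`. -/
noncomputable def siteLaw (p q : ℝ) : Measure (Fin 3) :=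
  ENNReal.ofReal p • Measure.dirac 0 + ENNReal.ofReal q • Measure.dirac 1 +
    ENNReal.ofReal (1 - p - q) • Measure.dirac 2

/-- The occupied sites at time `t`: at every step, every empty site with at least `r` occupied
neighbours becomes occupied. -/
def occupied (d r : ℕ) (ω : (Fin d → ℤ) → Fin 3) : ℕ → Set (Fin d → ℤ)
  | 0 => {x | ω x = 0}
  | t + 1 => occupied d r ω t ∪
      {x | ω x = 2 ∧ r ≤ ({y | y ∈ occupied d r ω t ∧ ∑ i, |y i - x i| = 1}).ncard}

/-- The probability that the origin is eventually occupied. -/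
noncomputable def φ (d r : ℕ) (p q : ℝ) : ℝ≥0∞ :=
  Measure.infinitePi (fun _ : Fin d → ℤ => siteLaw p q) {ω | ∃ t, (0 : Fin d → ℤ) ∈ occupied d r ω t}

theorem occupied_eq (d r : ℕ) (ω : (Fin d → ℤ) → Fin 3) (t : ℕ) :
    occupied d r ω t = DenseClosedSites.occupied d r ω t := by
  induction t with
  | zero => rfl
  | succ t ih =>
    show occupied d r ω t ∪
      {x | ω x = 2 ∧ r ≤ ({y | y ∈ occupied d r ω t ∧ ∑ i, |y i - x i| = 1}).ncard} = _
    rw [ih]
    rfl

theorem φ_eq (d r : ℕ) (p q : ℝ) : φ d r p q = DenseClosedSites.φ d r p q := by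
  unfold φ DenseClosedSites.φ
  simp only [occupied_eq]
  rfl

/-- For `1 ≤ r < d`, `φ(p, q) → 1` as `(p, q) → (0, 0)` within `p > 0`, `q ≥ 0`, `p + q ≤ 1`. -/
theorem result (d r : ℕ) (hr1 : 1 ≤ r) (hr : r < d) :
    Tendsto (fun z : ℝ × ℝ => φ d r z.1 z.2)
      (𝓝[{z | 0 < z.1 ∧ 0 ≤ z.2 ∧ z.1 + z.2 ≤ 1}] (0, 0)) (𝓝 1) := by
  simp only [φ_eq]
  exact Pool.Agent.W5h98.Pol.lt_lim hr1 hr

end Pool.Agent.Results.MP_faaa3e_pr.LowThreshold
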