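import Pool.Agent.W5h98.Pol.Seqs

/-!
Polluted bootstrap percolation on `ℤ^d` with threshold `r = d ≥ 2`: `φ → 1` exactly at the
exponents `α > d`, and `φ → 0` exactly at the exponents `α < d`.
-/

set_option autoImplicit false

namespace Pool.Agent.Results.MP_faaa3e_pr.SharpExponent
open MeasureTheory ProbabilityTheory Filter Topology
open scoped ENNReal

/-- The law of one site: `0` (occupied) with probability `p`, `1` (closed) with probability `q`,
`2` (empty) with probability `1 - p - q`. -/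
noncomputable def siteLaw (p q : ℝ) : Measure (Fin 3) :=
  ENNReal.ofReal p • Measure.dirac 0 + ENNReal.ofReal q • Measure.dirac 1 +
    ENNReal.ofReal (1 - p - q) • Measure.dirac 2

/-- The occupied sites at time `t`: at every step, every empty site with at least `r` occupied
neighbours becomes occupied. -/
def occupied (d r : ℕ) (ω : (Fin d → ℤ) → Fin 3) : ℕ → Set (Fin d → ℤ)
  | 0 => {x | ω x = 0}
  | t + 1 => occupied d r ω t ∪
      {x | ω x = 2 ∧ r ≤ ({y | y ∈ occupied d r ω t ∧ ∑ i, |y i - x i| = 1}).ncard}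

/-- The probability that the origin is eventually occupied. -/
noncomputable def φ (d r : ℕ) (p q : ℝ) : ℝ≥0∞ :=
  Measure.infinitePi (fun _ : Fin d → ℤ => siteLaw p q) {ω | ∃ t, (0 : Fin d → ℤ) ∈ occupied d r ω t}

/-- `φ → l` at the exponent `α ∈ [0, ∞]`. -/
def ConvAt (d r : ℕ) (α l : ℝ≥0∞) : Prop :=
  ∀ p q : ℕ → ℝ, (∀ n, 0 < p n) → (∀ n, 0 < q n) → (∀ n, p n + q n ≤ 1) →
    Tendsto p atTop (𝓝 0) → Tendsto q atTop (𝓝 0) →
    Tendsto (fun n => ((Real.log (q n) / Real.log (p n) : ℝ) : EReal)) atTop (𝓝 (α : EReal)) →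
    Tendsto (fun n => φ d r (p n) (q n)) atTop (𝓝 l)

theorem occupied_eq (d r : ℕ) (ω : (Fin d → ℤ) → Fin 3) (t : ℕ) :
    occupied d r ω t = DenseClosedSites.occupied d r ω t := by
  induction t with
  | zero => rfl
  | succ t ih =>
    show occupied d r ω t ∪
      {x | ω x = 2 ∧ r ≤ ({y | y ∈ occupied d r ω t ∧ ∑ i, |y i - x i| = 1}).ncard} = _
    rw [ih]
    rfl

theorem φ_eq (d r : ℕ) (p q : ℝ) : φ d r p q = DenseClosedSites.φ d r p q := by
  unfold φ DenseClosedSites.φ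
  simp only [occupied_eq]
  rfl

/-- The hypothesis on the exponent, for a finite exponent. -/
theorem to_real {f : ℕ → ℝ} {α : ℝ≥0∞} (hα : α ≠ ⊤)
    (h : Tendsto (fun n => (f n : EReal)) atTop (𝓝 (α : EReal))) :
    Tendsto f atTop (𝓝 α.toReal) := by
  rw [← EReal.coe_ennreal_toReal hα] at h
  exact EReal.tendsto_coe.1 h

theorem of_real {f : ℕ → ℝ} {α : ℝ≥0∞} (hα : α ≠ ⊤) (h : Tendsto f atTop (𝓝 α.toReal)) :
    Tendsto (fun n => (f n : EReal)) atTop (𝓝 (α : EReal)) := by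
  rw [← EReal.coe_ennreal_toReal hα]
  exact EReal.tendsto_coe.2 h

/-- Above the exponent `d`. -/
theorem above (d : ℕ) (hd : 2 ≤ d) (α : ℝ≥0∞) (hα : (d : ℝ≥0∞) < α) : ConvAt d d α 1 := by
  intro p q hp hq hpq hp0 _ hlog
  simp only [φ_eq]
  have hev : ∃ β : ℝ, (d : ℝ) < β ∧ ∀ᶠ n in atTop, β ≤ Real.log (q n) / Real.log (p n) := by
    by_cases htop : α = ⊤
    · subst htop
      rw [EReal.coe_ennreal_top, EReal.tendsto_coe_nhds_top_iff] at hlog
      exact ⟨d + 1, by linarith, hlog.eventually_ge_atTop _⟩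
    · have h1 := to_real htop hlog
      have h2 : (d : ℝ) < α.toReal := by
        have := (ENNReal.toReal_lt_toReal (ENNReal.natCast_ne_top d) htop).2 hα
        simpa using this
      obtain ⟨β, hβ1, hβ2⟩ := exists_between h2
      exact ⟨β, hβ1, h1.eventually (eventually_ge_nhds hβ2)⟩
  obtain ⟨β, hβ, hev⟩ := hev
  exact Pool.Agent.W5h98.Pol.diag_lim hd p q hp (fun n => (hq n).le) hpq hp0
    (Pool.Agent.W5h98.Pol.small_of_ratio (by omega) hp hq hp0 hβ hev)

/-- Below the exponent `d`. -/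
theorem below (d : ℕ) (hd : 2 ≤ d) (α : ℝ≥0∞) (hα : α < (d : ℝ≥0∞)) : ConvAt d d α 0 := by
  intro p q hp hq hpq hp0 hq0 hlog
  have htop : α ≠ ⊤ := (hα.trans (ENNReal.natCast_lt_top d)).ne
  have h2 : α.toReal < (d : ℝ) := by
    have := (ENNReal.toReal_lt_toReal htop (ENNReal.natCast_ne_top d)).2 hα
    simpa using this
  simp only [φ_eq]
  exact (DenseClosedSites.result d hd).2.1 α.toReal h2 p q hp hq hpq hp0 hq0 (to_real htop hlog)

/-- Every exponent is realised. -/
theorem exists_seq (α : ℝ≥0∞) : ∃ p q : ℕ → ℝ, (∀ n, 0 < p n) ∧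
    (∀ n, 0 < q n) ∧ (∀ n, p n + q n ≤ 1) ∧ Tendsto p atTop (𝓝 0) ∧ Tendsto q atTop (𝓝 0) ∧
    Tendsto (fun n => ((Real.log (q n) / Real.log (p n) : ℝ) : EReal)) atTop (𝓝 (α : EReal)) := by
  by_cases htop : α = ⊤
  · subst htop
    obtain ⟨p, q, h1, h2, h3, h4, h5, h6⟩ := Pool.Agent.W5h98.Pol.seq_inf
    refine ⟨p, q, h1, h2, h3, h4, h5, ?_⟩
    rw [EReal.coe_ennreal_top, EReal.tendsto_coe_nhds_top_iff]
    exact h6
  · obtain ⟨p, q, h1, h2, h3, h4, h5, h6, _⟩ :=
      Pool.Agent.W5h98.Pol.seq_fin α.toReal ENNReal.toReal_nonneg 1 le_rfl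
    exact ⟨p, q, h1, h2, h3, h4, h5, of_real htop h6⟩

theorem not_both (d : ℕ) (α : ℝ≥0∞) (h1 : ConvAt d d α 1) (h0 : ConvAt d d α 0) : False := by
  obtain ⟨p, q, a1, a2, a3, a4, a5, a6⟩ := exists_seq α
  exact zero_ne_one (tendsto_nhds_unique (h0 p q a1 a2 a3 a4 a5 a6) (h1 p q a1 a2 a3 a4 a5 a6))

/-- At the exponent `d`, `φ → 1` fails. -/
theorem at_one (d : ℕ) (hd : 2 ≤ d) (h : ConvAt d d (d : ℝ≥0∞) 1) : False := by
  apply (DenseClosedSites.result d hd).2.2
  intro p q hp hq hpq hp0 hq0 hlog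
  have := h p q hp hq hpq hp0 hq0 (of_real (ENNReal.natCast_ne_top d) (by simpa using hlog))
  simpa only [φ_eq] using this

/-- At the exponent `d`, `φ → 0` fails. -/
theorem at_zero (d : ℕ) (hd : 2 ≤ d) (h : ConvAt d d (d : ℝ≥0∞) 0) : False := by
  obtain ⟨p, q, a1, a2, a3, a4, a5, a6, a7, a8⟩ :=
    Pool.Agent.W5h98.Pol.seq_fin (d : ℝ) (Nat.cast_nonneg d) (d + 1) (by omega)
  have h0 := h p q a1 a2 a3 a4 a5 (of_real (ENNReal.natCast_ne_top d) (by simpa using a6))
  have h1 : Tendsto (fun n => φ d d (p n) (q n)) atTop (𝓝 1) := by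
    simp only [φ_eq]
    apply Pool.Agent.W5h98.Pol.diag_lim hd p q a1 (fun n => (a2 n).le) a3 a4
    have e : ∀ n, q n * (Real.log (1 / p n) / p n) ^ d = 1 / ((n : ℝ) + 2) := by
      intro n
      have hn0 : (0 : ℝ) < (n : ℝ) + 2 := by positivity
      rw [one_div, Real.log_inv, a7 n, Real.log_exp, neg_neg, a8 n, Real.exp_neg, Real.exp_neg,
        Real.exp_nat_mul, div_pow, inv_pow]
      have h1 := (Real.exp_pos ((n : ℝ) + 2)).ne'
      have h2 := hn0.ne'
      field_simp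
      ring
    simp_rw [e, one_div]
    exact Pool.Agent.W5h98.Pol.nat_two.inv_tendsto_atTop
  exact zero_ne_one (tendsto_nhds_unique h0 h1)

/-- For `r = d ≥ 2`, the set of exponents at which `φ → 1` is `(d, ∞]`, and the set of exponents
at which `φ → 0` is `[0, d)`. -/
theorem result (d : ℕ) (hd : 2 ≤ d) :
    {α : ℝ≥0∞ | ConvAt d d α 1} = Set.Ioi (d : ℝ≥0∞) ∧
      {α : ℝ≥0∞ | ConvAt d d α 0} = Set.Iio (d : ℝ≥0∞) := by
  constructor
  · ext α
    rw [Set.mem_Ioi]
    constructor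
    · intro h
      by_contra hcon
      rcases lt_or_eq_of_le (not_lt.1 hcon) with h1 | h1
      · exact not_both d α h (below d hd α h1)
      · subst h1
        exact at_one d hd h
    · exact above d hd α
  · ext α
    rw [Set.mem_Iio]
    constructor
    · intro h
      by_contra hcon
      rcases lt_or_eq_of_le (not_lt.1 hcon) with h1 | h1
      · exact not_both d α (above d hd α h1) h
      · subst h1
        exact at_zero d hd h
    · exact below d hd α

end Pool.Agent.Results.MP_faaa3e_pr.SharpExponent
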